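import Pool.Agent.R502.BL.AllMod

/-!
# The Brun-Titchmarsh inequality beyond the constant 2: every modulus, every interval, almost all classes

Proof: Selberg's weights with a level `D` between `y/k` and `y`; the remainders are bounded in the mean square
over the classes (Fourier expansion modulo `k` and the large sieve inequality for the fractions `h / d`).
From Mathlib: `Nat.totient`: Euler's function; `[MOD k]`: congruence modulo `k`; `Set.ncard`: number of elements.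
-/

set_option autoImplicit false

namespace Pool.Agent.Results.MP_26a8c3_nt.AlmostAllClasses

open Finset Pool.Agent.R502.BL

/-- `N(x,y;k,l)`: the number of primes `p` with `x - y < p ≤ x` and `p ≡ l (mod k)`. -/
noncomputable def N (x y : ℝ) (k l : ℕ) : ℕ :=
  {p : ℕ | p.Prime ∧ x - y < p ∧ (p : ℝ) ≤ x ∧ p ≡ l [MOD k]}.ncard

/-- (i) For all `κ > 0` and `A` there are `δ > 0` and `c > 0` such that for every large modulus `k` and ALL real `x`, `y`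
with `k ^ (1 + κ) ≤ y ≤ k ^ A`, `y ≤ x`, the inequality `N(x,y;k,l) < (2 - δ) y / (φ(k) log(y/k))` holds for all but at
most `k ^ (1 - c)` of the reduced classes `l` modulo `k`.

(ii) More precisely: for all `ε > 0` and `A`, every large `k`, ALL real `x`, `y` with `k ^ (1 + ε) ≤ y ≤ k ^ A`, `y ≤ x`, and
all `0 ≤ t ≤ 1`, the inequality `N(x,y;k,l) ≤ (2 + ε) y / (φ(k) log(y / k ^ t))` holds for all but at most
`k ^ (2 - 2 t + ε) + k ^ (2 + ε) / y` of the reduced classes `l` modulo `k`. -/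
theorem result :
    (∀ κ A : ℝ, 0 < κ → ∃ δ c : ℝ, 0 < δ ∧ 0 < c ∧ ∃ k₀ : ℕ, ∀ k : ℕ, k₀ ≤ k → ∀ x y : ℝ,
      (k : ℝ) ^ (1 + κ) ≤ y → y ≤ (k : ℝ) ^ A → y ≤ x →
      ({l : ℕ | l < k ∧ l.Coprime k ∧
        (2 - δ) * y / (Nat.totient k * Real.log (y / k)) ≤ N x y k l}.ncard : ℝ) ≤ (k : ℝ) ^ (1 - c)) ∧
    (∀ ε A : ℝ, 0 < ε → ∃ k₀ : ℕ, ∀ k : ℕ, k₀ ≤ k → ∀ x y : ℝ,
      (k : ℝ) ^ (1 + ε) ≤ y → y ≤ (k : ℝ) ^ A → y ≤ x → ∀ t : ℝ, 0 ≤ t → t ≤ 1 →
      ({l : ℕ | l < k ∧ l.Coprime k ∧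
        (2 + ε) * y / (Nat.totient k * Real.log (y / (k : ℝ) ^ t)) < N x y k l}.ncard : ℝ) ≤
        (k : ℝ) ^ (2 - 2 * t + ε) + (k : ℝ) ^ (2 + ε) / y) := by
  classical
  refine ⟨fun κ A hκ => ?_, fun ε A hε => ?_⟩
  · obtain ⟨δ, c, hδ, hc, h⟩ := all2 κ A hκ
    obtain ⟨k₀, hk₀⟩ := Filter.eventually_atTop.1 h
    refine ⟨δ, c, hδ, hc, k₀ + 1, fun k hk x y hy1 hy2 hyx => ?_⟩
    have hy0 : 0 ≤ y := (Real.rpow_nonneg (Nat.cast_nonneg k) _).trans hy1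
    refine (ncard_le_of_sub (F := (range k).filter (fun l => l.Coprime k ∧
      (2 - δ) * y / (Nat.totient k * Real.log (y / k)) ≤ (pc k ⌊x - y⌋₊ ⌊x⌋₊ l : ℝ))) ?_).trans
      (hk₀ k (by omega) x y hy1 hy2 hyx _ fun l hl => ?_)
    · intro l hl
      obtain ⟨h1, h2, h3⟩ := hl
      rw [N, N_eq hyx hy0] at h3
      rw [mem_filter, mem_range]
      exact ⟨h1, h2, h3⟩
    · rw [mem_filter, mem_range] at hl
      exact hl
  · obtain ⟨k₀, hk₀⟩ := Filter.eventually_atTop.1 (all1 ε A hε)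
    refine ⟨k₀, fun k hk x y hy1 hy2 hyx t ht0 ht1 => ?_⟩
    have hy0 : 0 ≤ y := (Real.rpow_nonneg (Nat.cast_nonneg k) _).trans hy1
    refine (ncard_le_of_sub (F := exc ε t k x y) ?_).trans (hk₀ k hk t ht0 ht1 x y hy1 hy2 hyx)
    intro l hl
    obtain ⟨h1, h2, h3⟩ := hl
    rw [N, N_eq hyx hy0] at h3
    rw [mem_exc]
    exact ⟨h1, h2, h3⟩

end Pool.Agent.Results.MP_26a8c3_nt.AlmostAllClasses
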