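import Pool.Agent.R502.BL.MainP
import Pool.Agent.R502.BL.Conv

/-!
# The Brun-Titchmarsh inequality for prime moduli and almost all classes: `y / q ^ (1/4)`

Proof: Selberg's weights with a level `D` up to `y / q ^ (1/4)`; the remainders with `d ≤ y / q ^ (1/2)` are bounded in the
mean square over the classes, those with larger `d` by characters and Burgess' estimate in short intervals.
From Mathlib: `Nat.totient`: Euler's function; `[MOD q]`: congruence modulo `q`; `Set.ncard`: number of elements.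
-/

set_option autoImplicit false

namespace Pool.Agent.Results.MP_26a8c3_nt.PrimeModuliAlmostAllClasses

open Finset Pool.Agent.R502.BL

/-- `N(x,y;k,l)`: the number of primes `p` with `x - y < p ≤ x` and `p ≡ l (mod k)`. -/
noncomputable def N (x y : ℝ) (k l : ℕ) : ℕ :=
  {p : ℕ | p.Prime ∧ x - y < p ∧ (p : ℝ) ≤ x ∧ p ≡ l [MOD k]}.ncard

/-- For all `ε > 0` and `A` there are `δ > 0` and `q₀` such that for every PRIME `q ≥ q₀` and all real `x`, `y` with
`q ^ (3/2 + ε) ≤ y ≤ q ^ A` and `y ≤ x ≤ y q ^ δ`, the inequality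
`N(x,y;q,l) ≤ (2 + ε) y / (φ(q) log(y / q ^ (1/4)))` holds for all but at most `q ^ (1 - δ)` of the
reduced classes `l` modulo `q`. -/
theorem result (ε A : ℝ) (hε : 0 < ε) : ∃ δ : ℝ, 0 < δ ∧ ∃ q₀ : ℕ, ∀ q : ℕ, q₀ ≤ q → q.Prime → ∀ x y : ℝ,
    (q : ℝ) ^ (3 / 2 + ε) ≤ y → y ≤ (q : ℝ) ^ A → y ≤ x → x ≤ y * (q : ℝ) ^ δ →
    ({l : ℕ | l < q ∧ l.Coprime q ∧
      (2 + ε) * y / (Nat.totient q * Real.log (y / (q : ℝ) ^ (1 / 4 : ℝ))) < N x y q l}.ncard : ℝ) ≤
      (q : ℝ) ^ (1 - δ) := by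
  classical
  have h0 : 0 < min ε 1 := lt_min hε one_pos
  obtain ⟨δ, hδ, h⟩ := mainP (min ε 1) A h0 (min_le_right _ _)
  obtain ⟨q₀, hq₀⟩ := Filter.eventually_atTop.1 h
  refine ⟨δ, hδ, q₀ + 2, fun q hq hqp x y hy1 hy2 hyx hxy => ?_⟩
  have hq1r : (1 : ℝ) < q := by exact_mod_cast hqp.one_lt
  have hq0 : (0 : ℝ) < q := by linarith
  have hle : min ε 1 ≤ ε := min_le_left _ _
  have hy0 : 0 < y := lt_of_lt_of_le (Real.rpow_pos_of_pos hq0 _) hy1
  refine (ncard_le_of_sub (F := exc (min ε 1) (1 / 4) q x y) ?_).trans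
    (hq₀ q (by omega) hqp x y ((Real.rpow_le_rpow_of_exponent_le hq1r.le (by linarith)).trans hy1) hy2 hyx hxy)
  intro l hl
  obtain ⟨h1, h2, h3⟩ := hl
  rw [N, N_eq hyx hy0.le] at h3
  rw [mem_exc]
  refine ⟨h1, h2, lt_of_le_of_lt ?_ h3⟩
  have hlog : 0 ≤ Real.log (y / (q : ℝ) ^ (1 / 4 : ℝ)) := by
    apply Real.log_nonneg
    rw [le_div_iff₀ (Real.rpow_pos_of_pos hq0 _), one_mul]
    exact (Real.rpow_le_rpow_of_exponent_le hq1r.le (by linarith)).trans hy1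
  gcongr

end Pool.Agent.Results.MP_26a8c3_nt.PrimeModuliAlmostAllClasses
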