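import Pool.Agent.R516.QK

/-!
# Brun and Titchmarsh in short progressions: every modulus, almost all positions, almost all classes

In the short range `y / k ≤ x ^ κ` (down to a power of `log x`) the factor `2 / log (y / k)` of the
Brun-Titchmarsh inequality is replaced by `(18 / 5 + δ) / log x` for ALL intervals around almost every
integer `n ≤ x` (primes in the class of `n` modulo `k`), for every modulus `k`; and for almost all classes
modulo `q` by `(18 / 5 + δ) / log y` for ALL initial intervals `(0, y]`, `q (log q) ^ B ≤ y ≤ q ^ R`.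
The proof majorizes the primes, in almost all short progressions, by sieve weights of level `x ^ (5 / 9)`.
-/

set_option autoImplicit false

namespace Pool.Agent.Results.MP_26a8c3_nt.ShortProgressions

open Finset

/-- the number of the primes `p` with `u < p ≤ v` and `p ≡ n (mod k)` -/
def cnt (u v k n : ℕ) : ℕ := ((Ioc u v).filter (fun p => p.Prime ∧ p ≡ n [MOD k])).card

open Classical in
/-- (i) For every `δ > 0` there are `κ > 0` and `x₀` such that for all `x ≥ x₀`, ALL moduli `k ≥ 1` and all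
`1 ≤ H ≤ x ^ κ` with `k H ≤ x`: all but at most `x (log x) ^ 21 / H` integers `n ≤ x` are such that EVERY
interval `(u, v]` with `u < n ≤ v ≤ x` and `v - u ≥ k H` contains at most
`(18 / 5 + δ) (v - u) / (φ(k) log x)` primes `p ≡ n (mod k)`.

(ii) For every `ε > 0` there are `κ > 0` and `x₀` such that for all `x ≥ x₀`, all `k ≥ 1` and all
`1 ≤ H ≤ x ^ κ` with `k H ≤ x`: all but at most `x (log x) ^ 21 / H` integers `n ≤ x` are such that for EVERY
interval `(u, v]` with `u < n ≤ v ≤ x` and `k H ≤ v - u ≤ k x ^ (5 / 9 - ε)`, `k < v - u`, the inequality of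
Brun and Titchmarsh holds with the constant `2 - 3 ε` for the class of `n` modulo `k`.

(iii) For all `δ > 0` and `R ≥ 1` there are `κ > 0` and `q₀` such that for all `q ≥ q₀` and `y₀ ≥ q`: all but
at most `q (log q) ^ 23 (q ^ (-κ) + q / y₀)` of the classes `a` modulo `q` are such that for ALL
`y₀ ≤ y ≤ q ^ R` there are at most `(18 / 5 + δ) y / (φ(q) log y)` primes `p ≡ a (mod q)`, `p ≤ y`. -/
theorem result :
    (∀ δ : ℝ, 0 < δ → ∃ κ : ℝ, 0 < κ ∧ ∃ x₀ : ℕ, ∀ x : ℕ, x₀ ≤ x → ∀ k : ℕ, 1 ≤ k → ∀ H : ℝ, 1 ≤ H →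
      H ≤ (x : ℝ) ^ κ → k * H ≤ x →
      (((Icc 1 x).filter (fun n : ℕ => ∃ u v : ℕ, u < n ∧ n ≤ v ∧ v ≤ x ∧ k * H ≤ (v : ℝ) - u ∧
        (18 / 5 + δ) * ((v : ℝ) - u) / (Nat.totient k * Real.log x) < (cnt u v k n : ℝ))).card : ℝ) ≤
        x * (Real.log x) ^ 21 / H) ∧
    (∀ ε : ℝ, 0 < ε → ∃ κ : ℝ, 0 < κ ∧ ∃ x₀ : ℕ, ∀ x : ℕ, x₀ ≤ x → ∀ k : ℕ, 1 ≤ k → ∀ H : ℝ, 1 ≤ H →
      H ≤ (x : ℝ) ^ κ → k * H ≤ x →
      (((Icc 1 x).filter (fun n : ℕ => ∃ u v : ℕ, u < n ∧ n ≤ v ∧ v ≤ x ∧ k * H ≤ (v : ℝ) - u ∧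
        (k : ℝ) < (v : ℝ) - u ∧ (v : ℝ) - u ≤ k * (x : ℝ) ^ (5 / 9 - ε) ∧
        (2 - 3 * ε) * ((v : ℝ) - u) / (Nat.totient k * Real.log (((v : ℝ) - u) / k)) <
          (cnt u v k n : ℝ))).card : ℝ) ≤
        x * (Real.log x) ^ 21 / H) ∧
    (∀ δ R : ℝ, 0 < δ → 1 ≤ R → ∃ κ : ℝ, 0 < κ ∧ ∃ q₀ : ℕ, ∀ q : ℕ, q₀ ≤ q → ∀ y₀ : ℕ, q ≤ y₀ →
      (((range q).filter (fun a : ℕ => ∃ y : ℕ, y₀ ≤ y ∧ (y : ℝ) ≤ (q : ℝ) ^ R ∧
        (18 / 5 + δ) * y / (Nat.totient q * Real.log y) < (cnt 0 y q a : ℝ))).card : ℝ) ≤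
        q * (Real.log q) ^ 23 * ((q : ℝ) ^ (-κ) + q / y₀)) := by
  have hU := Pool.Agent.R516.winUQ Pool.Agent.R516.coreq
  have hcnt : ∀ u v k n : ℕ, cnt u v k n =
      ((Ioc u v).filter (fun p => p.Prime ∧ p % k = n % k)).card := fun _ _ _ _ => rfl
  have h1 : ∀ δ : ℝ, 0 < δ → ∃ κ : ℝ, 0 < κ ∧ ∃ x₀ : ℕ, ∀ x : ℕ, x₀ ≤ x → ∀ k : ℕ, 1 ≤ k →
      ∀ H : ℝ, 1 ≤ H → H ≤ (x : ℝ) ^ κ → k * H ≤ x →
      (((Icc 1 x).filter (fun n : ℕ => ∃ u v : ℕ, u < n ∧ n ≤ v ∧ v ≤ x ∧ k * H ≤ (v : ℝ) - u ∧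
        (18 / 5 + δ) * ((v : ℝ) - u) / (Nat.totient k * Real.log x) < (cnt u v k n : ℝ))).card : ℝ) ≤
        x * (Real.log x) ^ 21 / H := by
    intro δ hδ
    obtain ⟨κ, hκ, x₀, hx₀⟩ := hU δ hδ
    refine ⟨κ, hκ, x₀, fun x hx k hk H hH1 hH2 hkH => ?_⟩
    refine le_trans (le_of_eq ?_) (hx₀ x hx k hk H hH1 hH2 hkH)
    congr 1
    apply congrArg Finset.card
    apply Finset.filter_congr
    intro n _
    unfold Pool.Agent.R516.HiQ
    constructor
    · rintro ⟨u, v, h1, h2, h3, h4, h5⟩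
      refine ⟨u, v, h1, h2, h3, h4, ?_⟩
      rw [hcnt] at h5
      rwa [div_mul_eq_mul_div]
    · rintro ⟨u, v, h1, h2, h3, h4, h5⟩
      refine ⟨u, v, h1, h2, h3, h4, ?_⟩
      rw [hcnt]
      rwa [div_mul_eq_mul_div] at h5
  refine ⟨h1, fun ε hε => ?_, fun δ R hδ hR => ?_⟩
  · obtain ⟨κ, hκ, x₀, hx₀⟩ := h1 ε hε
    refine ⟨κ, hκ, max x₀ 3, fun x hx k hk H hH1 hH2 hkH => ?_⟩
    refine le_trans ?_ (hx₀ x ((le_max_left _ _).trans hx) k hk H hH1 hH2 hkH)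
    have hx3 : (3 : ℝ) ≤ x := by exact_mod_cast (le_max_right x₀ 3).trans hx
    have hx0 : (0 : ℝ) < x := by linarith
    have hL : 0 < Real.log x := Real.log_pos (by linarith)
    have hk0 : (0 : ℝ) < k := by exact_mod_cast hk
    have hφ : (0 : ℝ) < Nat.totient k := by exact_mod_cast Nat.totient_pos.2 hk
    apply Nat.cast_le.2
    apply Finset.card_le_card
    intro n hn
    rw [Finset.mem_filter] at hn ⊢
    obtain ⟨hn1, u, v, h1, h2, h3, h4, h5, h6, h7⟩ := hn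
    refine ⟨hn1, u, v, h1, h2, h3, h4, lt_of_le_of_lt ?_ h7⟩
    have hvu : (0 : ℝ) < (v : ℝ) - u := by linarith
    have hlog0 : 0 < Real.log (((v : ℝ) - u) / k) := by
      apply Real.log_pos
      rw [lt_div_iff₀ hk0, one_mul]
      exact h5
    have hlog1 : Real.log (((v : ℝ) - u) / k) ≤ (5 / 9 - ε) * Real.log x := by
      have h8 : ((v : ℝ) - u) / k ≤ (x : ℝ) ^ (5 / 9 - ε) := by
        rw [div_le_iff₀ hk0]
        linarith
      have h9 := Real.log_le_log (by positivity) h8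
      rwa [Real.log_rpow hx0] at h9
    rw [div_le_div_iff₀ (by positivity) (by positivity)]
    have h10 : (18 / 5 + ε) * Real.log (((v : ℝ) - u) / k) ≤ (2 - 3 * ε) * Real.log x := by
      calc (18 / 5 + ε) * Real.log (((v : ℝ) - u) / k) ≤
          (18 / 5 + ε) * ((5 / 9 - ε) * Real.log x) :=
            mul_le_mul_of_nonneg_left hlog1 (by positivity)
        _ = (2 - (18 / 5 - 5 / 9) * ε - ε * ε) * Real.log x := by ring
        _ ≤ (2 - 3 * ε) * Real.log x := by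
            apply mul_le_mul_of_nonneg_right _ hL.le
            have := mul_pos hε hε
            linarith
    calc (18 / 5 + ε) * ((v : ℝ) - u) * (Nat.totient k * Real.log (((v : ℝ) - u) / k)) =
        (((v : ℝ) - u) * Nat.totient k) * ((18 / 5 + ε) * Real.log (((v : ℝ) - u) / k)) := by ring
      _ ≤ (((v : ℝ) - u) * Nat.totient k) * ((2 - 3 * ε) * Real.log x) :=
          mul_le_mul_of_nonneg_left h10 (by positivity)
      _ = _ := by ring
  · obtain ⟨κ, hκ, q₀, hq₀⟩ := Pool.Agent.R516.kq δ hδ R hR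
    refine ⟨κ, hκ, q₀, fun q hq y₀ hy₀ => ?_⟩
    apply hq₀ q hq y₀ hy₀
    intro a ha
    rw [Finset.mem_filter, Finset.mem_range] at ha
    obtain ⟨ha1, y, h1, h2, h3⟩ := ha
    refine ⟨ha1, y, h1, h2, ?_⟩
    rw [hcnt, Nat.mod_eq_of_lt ha1] at h3
    unfold Pool.Agent.R516.pcq
    rwa [div_mul_eq_mul_div]

end Pool.Agent.Results.MP_26a8c3_nt.ShortProgressions
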