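import Pool.Agent.R501.BT1
import Pool.Agent.Y958.RM.Cor
import Pool.Agent.Y958.RM.Lawh

/-!
# The Brun–Titchmarsh inequality with the constant `1` for almost all classes to palindromic and other random moduli

Nothing is used besides Mathlib in the statement about the primes. Definitions used from the starting files
`Pool.Agent.TH872.Transfer` (namespace `Pool.Agent.TH872.Tr`): `num g k E`: the number of the palindromes with exactly
`k` digits in base `g` which have the property `E`; `value g k μ c d z`: the integer `c + μ v`, where `v` has the pair of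
digits `d i` at the positions `i` and `k - 1 - i`, for `i < k / 2`, and, if `k` is odd, the middle digit `z`;
`Prob g k w u E`: the probability of the event `E` if the pairs `d i` and the digit `z` are chosen independently of each
other with the distributions `w i` and `u`; `Pairs g k η w`: the `w i` are distributions of pairs of digits, and two
independent copies of the pair number `i` (`i ≥ 1`) differ in both digits with a probability of at least `η`; and from
`Pool.Agent.TH872.An1` (namespace `Pool.Agent.TH872.An`): `Spread g k η d`: the integers `d i` (`i < k`) are digits in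
base `g`, and no digit is taken at more than `(1 - η) k` of the `k` places; `V g d σ`: the integer with the permuted
digits, thus the integer with the digit `d (σ i)` at the place `i`, in base `g`.
-/

set_option autoImplicit false

namespace Pool.Agent.Results.MP_26a8c3_nt.StructuredModuli

open Finset Pool.Agent.TH872.Tr
open Pool.Agent.TH872.An (Spread V)

/-- `N(x, y; q, l)` for `0 ≤ y ≤ x` and `0 ≤ l < q`: the number of the primes `p` with `x - y < p ≤ x` and
`p ≡ l (mod q)` -/
noncomputable def cnt (x y : ℝ) (q l : ℕ) : ℕ :=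
  ((Ioc ⌊x - y⌋₊ ⌊x⌋₊).filter (fun p => p.Prime ∧ p % q = l)).card

open Classical in
/-- For all `l` with `0 ≤ l < q` and `gcd(l, q) = 1`, except for at most `φ(q) / (log q) ^ U` of them:
`N(x, y; q, l) ≤ (1 + ε) y / (φ(q) log q)` for ALL real `x`, `y` with `q (log q) ^ B ≤ y ≤ x ≤ q (log q) ^ (B + D)`. -/
def Holds (ε : ℝ) (U B D q : ℕ) : Prop :=
  (((range q).filter (fun l => Nat.Coprime l q ∧ ∃ x y : ℝ, q * Real.log q ^ B ≤ y ∧ y ≤ x ∧
    x ≤ q * Real.log q ^ (B + D) ∧ (1 + ε) * (y / (Nat.totient q * Real.log q)) < cnt x y q l)).card : ℝ) ≤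
    Nat.totient q / Real.log q ^ U

/-- The set `J` of scales below `k` is rich: it contains more than three fifths of all the scales, more than one half
of the `m` lowest scales, and a positive proportion of the `m` highest scales (the last two conditions are
void for `m ≤ T log k`). -/
structure Rich (δ : ℝ) (T k : ℕ) (J : Finset ℕ) : Prop where
  lt : ∀ j ∈ J, j < k
  all : (3 / 5 + δ) * k ≤ (J.card : ℝ)
  low : ∀ m ≤ k, (1 / 2 + δ) * m ≤ ((J.filter fun j => j < m).card : ℝ) + T * Real.log k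
  high : ∀ m ≤ k, δ * m ≤ ((J.filter fun j => k - m ≤ j).card : ℝ) + T * Real.log k

open Classical in
/-- The probability of the event `E` if `x 0, ..., x (k - 1)` are independent random integers, where `x j` takes
its values in the finite set `s j`, and the value `x` with the probability `p j x`. -/
noncomputable def ProbSum (k : ℕ) (s : ℕ → Finset ℤ) (p : ℕ → ℤ → ℝ) (E : (Fin k → ℤ) → Prop) : ℝ :=
  ∑ x ∈ Fintype.piFinset (fun j : Fin k => s j), if E x then ∏ j : Fin k, p j (x j) else 0

/-- the integer `Q` is at least `g ^ k / k ^ κ`, and not a modulus with the property `Holds` -/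
def Bad (ε : ℝ) (U B D κ g k : ℕ) (Q : ℤ) : Prop := (g : ℤ) ^ k ≤ Q * (k : ℤ) ^ κ ∧ ¬ Holds ε U B D Q.toNat

lemma holds_iff (ε : ℝ) (U B D q : ℕ) : Holds ε U B D q ↔ Pool.Agent.R501.BT.Bt ε U B D q := Iff.rfl

open Classical in
lemma num_mono (b k : ℕ) (E F : ℕ → Prop) (h : ∀ v : ℕ, IsPalindrome b k v → E v → F v) : num b k E ≤ num b k F := by
  unfold num
  apply card_le_card
  intro v hv
  rw [mem_filter] at hv ⊢
  exact ⟨hv.1, hv.2.1, h v hv.2.1 hv.2.2⟩

open Classical in
/-- **The Brun–Titchmarsh inequality with the constant 1 for almost all classes to structured moduli.** Let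
`0 < ε ≤ 1`, `D`, `U`, `V'` and `B ≥ 2 D + U + 2` be fixed, and let `Holds` be the following property of a modulus `q`: for
all reduced classes `l` modulo `q`, except for at most `φ(q) / (log q) ^ U` of them,
`N(x, y; q, l) ≤ (1 + ε) y / (φ(q) log q)` for ALL real `x`, `y` with `q (log q) ^ B ≤ y ≤ x ≤ q (log q) ^ (B + D)`. Let
also `g ≥ 2`, `F`, `κ`, `η > 0` be fixed, let `k` be large, and let `c` be an arbitrary integer with `|c| ≤ F g ^ k`.

(1) Palindromes: all palindromes `q` with exactly `k` digits in base `g`, up to a proportion of at most `1 / k ^ V'`, have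
the property `Holds`. More generally (`μ ≠ 0` fixed) so have all the integers `c + μ v ≥ g ^ k / k ^ κ` with such a
palindrome `v`, up to the same proportion, and the integers `c + μ v ≥ g ^ k / k ^ κ` with a random `v` whose pairs of
digits at the positions `i` and `k - 1 - i` are independent of each other for different `i` (with arbitrary
distributions, only two independent copies of a pair with `i ≥ 1` should differ in both digits with a probability of at
least `η`), up to an event of probability at most `1 / k ^ V'`.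

(2) Rearrangements: let `d` be an arbitrary sequence of `k` digits in base `g` none of which is taken at more than
`(1 - η) k` places. Then for all permutations `σ` of the `k` places, with at most `k! / k ^ V'` exceptions, the integer
`c + μ v_σ`, where `v_σ` is the integer with the permuted digits, is smaller than `g ^ k / k ^ κ` or has the property.

(3) Random sums: let `J` be a rich set of scales below `k` and let `x 0, ..., x (k - 1)` be independent random integers
with `|x j| ≤ F g ^ j` such that, for all `j` in `J`, no interval of the length `g ^ j / F` contains `x j` with a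
probability larger than `1 - η` (nothing is assumed for the other `j`). Then, with a probability of at least
`1 - 1 / k ^ V'`, the integer `c + x 0 + ... + x (k - 1)` is smaller than `g ^ k / k ^ κ` or has the property. -/
theorem result (ε : ℝ) (hε : 0 < ε) (hε1 : ε ≤ 1) (B D U V' : ℕ) (hB : 2 * D + U + 2 ≤ B)
    (g F κ : ℕ) (hg : 2 ≤ g) (hF : 1 ≤ F) (η : ℝ) (hη : 0 < η) :
    (∀ μ : ℤ, μ ≠ 0 → ∃ k₀ : ℕ, ∀ k : ℕ, k₀ ≤ k →
      (num g k (fun q => ¬ Holds ε U B D q) : ℝ) ≤ num g k (fun _ => True) / (k : ℝ) ^ V' ∧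
      ∀ c : ℤ, |c| ≤ F * (g : ℤ) ^ k →
        (num g k (fun v => Bad ε U B D κ g k (c + μ * v)) : ℝ) ≤ num g k (fun _ => True) / (k : ℝ) ^ V' ∧
        (∀ (w : ℕ → ℕ × ℕ → ℝ) (u : ℕ → ℝ), Pairs g k η w → (∀ a, 0 ≤ u a) → ∑ a ∈ range g, u a = 1 →
          Prob g k w u (fun d z => Bad ε U B D κ g k (value g k μ c d z)) ≤ 1 / (k : ℝ) ^ V') ∧
        (∀ d : Fin k → ℕ, Spread g k η d →
          ((univ.filter (fun σ : Equiv.Perm (Fin k) => Bad ε U B D κ g k (c + μ * V g d σ))).card : ℝ) ≤
            k.factorial / (k : ℝ) ^ V')) ∧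
    (∀ (T : ℕ) (δ : ℝ), 0 < δ → ∃ k₀ : ℕ, ∀ k : ℕ, k₀ ≤ k → ∀ J : Finset ℕ, Rich δ T k J →
      ∀ (s : ℕ → Finset ℤ) (p : ℕ → ℤ → ℝ),
        (∀ j < k, (∀ x ∈ s j, 0 ≤ p j x ∧ |x| ≤ (F : ℤ) * (g : ℤ) ^ j) ∧ ∑ x ∈ s j, p j x = 1) →
        (∀ j ∈ J, ∀ y : ℤ, ∑ x ∈ (s j).filter (fun x => y ≤ x ∧ (F : ℤ) * (x - y) ≤ (g : ℤ) ^ j), p j x ≤ 1 - η) →
        ∀ c : ℤ, |c| ≤ (F : ℤ) * (g : ℤ) ^ k →
          ProbSum k s p (fun x => Bad ε U B D κ g k (c + ∑ j, x j)) ≤ 1 / (k : ℝ) ^ V') := by
  refine ⟨fun μ hμ => ?_, fun T δ hδ => ?_⟩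
  · obtain ⟨k₀, h⟩ := transfer g F V' hg μ _ (Pool.Agent.R501.BT.pal_rare_bt g F κ V' hg μ hμ ε hε hε1 B D U hB) η hη
    obtain ⟨k₁, h'⟩ := transfer g 0 V' hg 1 _ (Pool.Agent.R501.BT.pal_rare_bt g 0 1 V' hg 1 one_ne_zero ε hε hε1 B D U hB)
      1 one_pos
    obtain ⟨k₂, h2⟩ := Pool.Agent.R501.PV.perm_rare g F (κ + (B + D + 2)) V' hg μ hμ η hη 1 one_pos le_rfl
    obtain ⟨k₃, h3⟩ := Pool.Agent.R501.BT.badq_of_bt g (F + μ.natAbs) κ hg ε hε hε1 B D U hB
    refine ⟨k₀ + k₁ + k₂ + k₃ + g + 4, fun k hk => ⟨?_, fun c hc => ?_⟩⟩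
    · have h1 := (h' k (by omega) 0 (by simp) (fun Q => (g : ℤ) ^ k ≤ Q * (k : ℤ) ^ 1 ∧ ¬ Holds ε U B D Q.toNat)
        (fun n hn => hn)).2
      refine le_trans ?_ h1
      have h2 : ∀ v : ℕ, IsPalindrome g k v → ¬ Holds ε U B D v →
          (g : ℤ) ^ k ≤ (0 + 1 * (v : ℤ)) * (k : ℤ) ^ 1 ∧ ¬ Holds ε U B D (0 + 1 * (v : ℤ)).toNat := by
        intro v hv hbad
        rw [zero_add, one_mul, Int.toNat_natCast]
        refine ⟨?_, hbad⟩
        have e1 : g ^ k = g ^ (k - 1) * g := by rw [← pow_succ]; congr 1; omega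
        have e2 : g ^ k ≤ v * k ^ 1 := by
          rw [e1, pow_one]
          exact Nat.mul_le_mul hv.1 (by omega)
        exact_mod_cast e2
      exact Nat.cast_le.2 (num_mono _ _ _ _ h2)
    · obtain ⟨a1, a2⟩ := h k (by omega) c hc (fun Q => Bad ε U B D κ g k Q) (fun n hn => hn)
      refine ⟨a2, a1, fun d hd => ?_⟩
      refine h2 k (by omega) d hd c hc _ (fun σ hσ => ?_)
      refine h3 k (by omega) _ hσ.1 ?_ hσ.2
      have h0 : ((V g d σ : ℕ) : ℤ) ≤ (g : ℤ) ^ k := by exact_mod_cast (Pool.Agent.TH872.An.V_lt hd (by omega) σ).le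
      have hbz : (1 : ℤ) ≤ g := by exact_mod_cast (by omega : 1 ≤ g)
      have h4 : (((F + μ.natAbs : ℕ)) : ℤ) ≤ (g : ℤ) ^ (F + μ.natAbs) := by
        exact_mod_cast (Nat.lt_pow_self (by omega : 1 < g)).le
      calc c + μ * (V g d σ : ℕ) ≤ |c + μ * (V g d σ : ℕ)| := le_abs_self _
        _ ≤ |c| + |μ * (V g d σ : ℕ)| := abs_add_le _ _
        _ = |c| + |μ| * (V g d σ : ℕ) := by rw [abs_mul, abs_of_nonneg (Int.natCast_nonneg _)]
        _ ≤ F * (g : ℤ) ^ k + |μ| * (g : ℤ) ^ k := add_le_add hc (mul_le_mul_of_nonneg_left h0 (abs_nonneg μ))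
        _ = ((F + μ.natAbs : ℕ) : ℤ) * (g : ℤ) ^ k := by push_cast; ring
        _ ≤ (g : ℤ) ^ (F + μ.natAbs) * (g : ℤ) ^ k := mul_le_mul_of_nonneg_right h4 (by positivity)
        _ = _ := by rw [← pow_add]; congr 1; ring
  · have hLAWH := Pool.Agent.Y958.RM.lawh
    have hCOR := Pool.Agent.Y958.RM.cor
    obtain ⟨k₁, h1⟩ := Pool.Agent.Y958.RM.rnd hLAWH hCOR g F T (κ + (B + D + 2)) V' hg hF η δ 1 hη hδ one_pos le_rfl
    obtain ⟨k₂, h2⟩ := Pool.Agent.R501.BT.badq_of_bt g (2 * F) κ hg ε hε hε1 B D U hB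
    refine ⟨k₁ + k₂, fun k hk J hJ s p hs hp c hc => ?_⟩
    have hJ' : Pool.Agent.Y885.Rich δ T k J := ⟨hJ.lt, hJ.low, hJ.high, hJ.all⟩
    refine le_trans ?_ (h1 k (by omega) J s p c hJ' hs (fun j hj y => by rw [← sum_filter]; exact hp j hj y) hc)
    unfold ProbSum
    apply sum_le_sum
    intro ω hω
    have hp0 : 0 ≤ ∏ j : Fin k, p j (ω j) := by
      rw [Fintype.mem_piFinset] at hω
      exact prod_nonneg fun j _ => ((hs j j.2).1 _ (hω j)).1
    have hle := Pool.Agent.Y885.rand_le g F k hg s c (fun j hj x hx => ((hs j hj).1 x hx).2) hc ω hω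
    split_ifs with h3 h4
    · exact le_rfl
    · exact absurd (h2 k (by omega) _ h3.1 ((le_abs_self _).trans hle) (by rw [← holds_iff]; exact h3.2)) h4
    · exact hp0
    · exact le_rfl

end Pool.Agent.Results.MP_26a8c3_nt.StructuredModuli
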